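import Mathlib

namespace Pool.Agent.Results.MP_efce82_al.Dense

open Polynomial

def IntK (D K : Type) {B : Type} [CommRing D] [Field K] [Ring B] [Algebra D B] [Algebra K B]
    (S : Set B) : Set K[X] :=
  {f | ∀ a ∈ S, IsIntegral D (aeval a f)}

def Eig (K : Type) {B : Type} [Field K] [Ring B] [Algebra K B] (S : Set B) :
    Set (AlgebraicClosure K) :=
  {z | ∃ b ∈ S, aeval z (minpoly K b) = 0}

section
variable {L : Type} [Field L] [NumberField L]

def Ord (L : Type) [Field L] (c : ℤ) : Subalgebra ℤ L where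
  carrier := {x | ∃ (n : ℤ) (b : L), IsIntegral ℤ b ∧ x = n + c * b}
  mul_mem' := by
    rintro _ _ ⟨n, b, hb, rfl⟩ ⟨m, d, hd, rfl⟩
    exact ⟨n * m, n * d + m * b + c * (b * d), (((isIntegral_intCast n).mul hd).add
      ((isIntegral_intCast m).mul hb)).add ((isIntegral_intCast c).mul (hb.mul hd)),
      by push_cast; ring⟩
  add_mem' := by
    rintro _ _ ⟨n, b, hb, rfl⟩ ⟨m, d, hd, rfl⟩
    exact ⟨n + m, b + d, hb.add hd, by push_cast; ring⟩
  algebraMap_mem' n := ⟨n, 0, isIntegral_zero, by simp⟩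

theorem Ord.int {c : ℤ} {x : L} (h : x ∈ Ord L c) : IsIntegral ℤ x := by
  obtain ⟨n, b, hb, rfl⟩ := h
  exact (isIntegral_intCast n).add ((isIntegral_intCast c).mul hb)

theorem approx (g : ℤ[X]) (a : L) (ha : IsIntegral ℤ a) (u m k : ℤ) (hu : u = 1 + m * k) :
    ∃ b : L, IsIntegral ℤ b ∧ aeval ((u : L) * a) g = aeval a g + m * b := by
  let O := integralClosure ℤ L
  let a' : O := ⟨a, ha⟩
  obtain ⟨c, hc⟩ := Polynomial.sub_dvd_eval_sub ((u : O) * a') a' (g.map (algebraMap ℤ O))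
  refine ⟨((k : O) * a' * c : O), ((k : O) * a' * c).2, ?_⟩
  rw [eval_map_algebraMap, eval_map_algebraMap] at hc
  have := congrArg O.val hc
  simp only [map_sub, map_mul, ← aeval_algHom_apply, map_intCast] at this
  simp only [a', Subalgebra.coe_val] at this
  push_cast
  rw [hu] at this ⊢
  push_cast at this ⊢
  linear_combination this

theorem dense (f : ℚ[X]) (h2 : ∀ x ∈ Ord L 2, IsIntegral ℤ (aeval x f))
    (h3 : ∀ x ∈ Ord L 3, IsIntegral ℤ (aeval x f)) (a : L) (ha : IsIntegral ℤ a) :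
    IsIntegral ℤ (aeval a f) := by
  obtain ⟨d, hd, hg⟩ := IsLocalization.integerNormalization_spec (nonZeroDivisors ℤ) f
  set g := IsLocalization.integerNormalization (nonZeroDivisors ℤ) f
  have hd0 : d ≠ 0 := nonZeroDivisors.ne_zero hd
  have hdL : (d : L) ≠ 0 := Int.cast_ne_zero.2 hd0
  have hev : ∀ x : L, aeval x g = d * aeval x f := fun x => by
    rw [← aeval_map_algebraMap ℚ, hg, map_zsmul, zsmul_eq_mul]
  have key : ∀ c : ℤ, Prime c → (∀ x ∈ Ord L c, IsIntegral ℤ (aeval x f)) →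
      ∃ k : ℕ, IsIntegral ℤ ((c : L) ^ k * aeval a f) := by
    intro c hc h
    obtain ⟨k, m, hm, e⟩ := WfDvdMonoid.max_power_factor hd0 hc.irreducible
    obtain ⟨s, t, hst⟩ := (hc.irreducible.coprime_iff_not_dvd.2 hm)
    obtain ⟨b, hb, h1⟩ := approx g a ha (s * c) m (-t) (by linear_combination hst)
    have h4 := h (((s * c : ℤ) : L) * a) ⟨0, s * a, (isIntegral_intCast s).mul ha, by
      push_cast; ring⟩
    have hm0 : (m : L) ≠ 0 := Int.cast_ne_zero.2 (by rintro rfl; exact hm (dvd_zero c))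
    refine ⟨k, ?_⟩
    have h5 : (c : L) ^ k * aeval a f = (c : L) ^ k * aeval (((s * c : ℤ) : L) * a) f - b := by
      apply mul_left_cancel₀ hm0
      rw [hev, hev, e] at h1
      push_cast at h1 ⊢
      linear_combination -h1
    rw [h5]
    exact (((isIntegral_intCast c).pow k).mul h4).sub hb
  obtain ⟨i, hi⟩ := key 2 Int.prime_two h2
  obtain ⟨j, hj⟩ := key 3 Int.prime_three h3
  obtain ⟨s, t, hst⟩ : IsCoprime ((2 : ℤ) ^ i) (3 ^ j) :=
    IsCoprime.pow (Int.isCoprime_iff_gcd_eq_one.2 rfl)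
  have := ((isIntegral_intCast s).mul hi).add ((isIntegral_intCast t).mul hj)
  have e : (s : L) * 2 ^ i + t * 3 ^ j = 1 := by exact_mod_cast congrArg (Int.cast : ℤ → L) hst
  have e2 : (s : L) * (((2 : ℤ) : L) ^ i * aeval a f) + t * (((3 : ℤ) : L) ^ j * aeval a f) =
      aeval a f := by
    push_cast
    linear_combination aeval a f * e
  rwa [e2] at this

theorem notin {c : ℤ} (hc : c ≠ 0) (h : ∀ n : ℤ, ¬ c ^ 2 ∣ n ^ 2 + 1) {x : L} (hx : x ∈ Ord L c) :
    x ^ 2 + 1 ≠ 0 := by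
  obtain ⟨n, b, hb, rfl⟩ := hx
  intro e
  have hcL : (c : L) ≠ 0 := Int.cast_ne_zero.2 hc
  let φ : L →ₐ[ℚ] ℂ := IsAlgClosed.lift
  have h1 : IsIntegral ℤ (φ b) := hb.map (φ.toRingHom.toIntAlgHom)
  have h2 : IsIntegral ℤ (starRingEnd ℂ (φ b)) := h1.map (starRingEnd ℂ).toIntAlgHom
  have h3 : ((n : ℂ) + c * φ b - Complex.I) * ((n : ℂ) + c * φ b + Complex.I) = 0 := by
    have := congrArg φ e
    simp only [map_add, map_pow, map_mul, map_intCast, map_one, map_zero] at this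
    linear_combination this - Complex.I_sq
  have hcC : (c : ℂ) ≠ 0 := Int.cast_ne_zero.2 hc
  have h4 : φ b * starRingEnd ℂ (φ b) = algebraMap ℚ ℂ ((n ^ 2 + 1) / c ^ 2) := by
    simp only [map_div₀, map_add, map_pow, map_intCast, map_one]
    rw [eq_div_iff (pow_ne_zero 2 hcC)]
    rcases mul_eq_zero.1 h3 with h4 | h4
    · have h5 := congrArg (starRingEnd ℂ) h4
      simp only [map_add, map_sub, map_mul, map_intCast, Complex.conj_I, map_zero] at h5
      linear_combination (c * starRingEnd ℂ (φ b)) * h4 + (Complex.I - n) * h5 - Complex.I_sq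
    · have h5 := congrArg (starRingEnd ℂ) h4
      simp only [map_add, map_sub, map_mul, map_intCast, Complex.conj_I, map_zero] at h5
      linear_combination (c * starRingEnd ℂ (φ b)) * h4 + (-Complex.I - n) * h5 - Complex.I_sq
  have h6 := h1.mul h2
  rw [h4, isIntegral_algebraMap_iff (algebraMap ℚ ℂ).injective] at h6
  obtain ⟨y, hy⟩ := IsIntegrallyClosed.isIntegral_iff.1 h6
  have hcQ : (c : ℚ) ≠ 0 := Int.cast_ne_zero.2 hc
  rw [eq_div_iff (pow_ne_zero 2 hcQ)] at hy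
  refine h n ⟨y, ?_⟩
  have : ((n ^ 2 + 1 : ℤ) : ℚ) = (c ^ 2 * y : ℤ) := by
    push_cast
    rw [← hy, mul_comm]
    rfl
  exact_mod_cast this

theorem fin (c : ℤ) : Module.Finite ℤ (Ord L c) :=
  have := IsIntegralClosure.isNoetherian ℤ ℚ L (integralClosure ℤ L)
  have h : Ord L c ≤ integralClosure ℤ L := fun _ h => Ord.int h
  Module.Finite.of_injective (Subalgebra.inclusion h).toLinearMap (Subalgebra.inclusion_injective h)

theorem mult {c : ℤ} (hc : c ≠ 0) (x : L) : ∃ m : ℤ, m ≠ 0 ∧ (m : L) * x ∈ Ord L c := by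
  have : IsAlgebraic ℤ x := (IsFractionRing.isAlgebraic_iff ℤ ℚ L).2 (Algebra.IsAlgebraic.isAlgebraic x)
  obtain ⟨m, hm, h⟩ := this.exists_integral_multiple
  exact ⟨c * m, mul_ne_zero hc hm, 0, m • x, h, by simp [mul_assoc]⟩

theorem root {z : AlgebraicClosure ℚ} (hz : z ^ 2 + 1 = 0) {x : L}
    (h : aeval z (minpoly ℚ x) = 0) : x ^ 2 + 1 = 0 := by
  have hx : IsIntegral ℚ x := Algebra.IsIntegral.isIntegral x
  have h1 := minpoly.eq_of_irreducible_of_monic (minpoly.irreducible hx) h (minpoly.monic hx)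
  have h2 : minpoly ℚ x ∣ X ^ 2 + 1 := h1 ▸ minpoly.dvd ℚ z (by simpa using hz)
  simpa using aeval_eq_zero_of_dvd_aeval_eq_zero h2 (minpoly.aeval ℚ x)

theorem main (i : L) (hi : i ^ 2 + 1 = 0) :
    ∃ (B : Type) (_ : CommRing B) (_ : Nontrivial B) (_ : Algebra ℤ B) (_ : Algebra ℚ B)
    (A : Subalgebra ℤ B), Module.Finite ℤ A ∧ Submodule.span ℚ (A : Set B) = ⊤ ∧
      IntK ℤ ℚ (A : Set B) = IntK ℤ ℚ {b : B | IsIntegral ℤ b} ∧
      Eig ℚ (A : Set B) ≠ Eig ℚ {b : B | IsIntegral ℤ b} := by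
  have pi : ∀ b : L × L, IsIntegral ℤ b ↔ IsIntegral ℤ b.1 ∧ IsIntegral ℤ b.2 := fun b =>
    IsIntegral.pair_iff
  have ev : ∀ (b : L × L) (f : ℚ[X]), aeval b f = (aeval b.1 f, aeval b.2 f) := fun b f =>
    aeval_prod_apply b f
  refine ⟨L × L, inferInstance, inferInstance, inferInstance, inferInstance, (Ord L 2).prod (Ord L 3),
    ?_, ?_, ?_, ?_⟩
  · have := fin (L := L) 2
    have := fin (L := L) 3
    let φ : (Ord L 2).prod (Ord L 3) →ₗ[ℤ] Ord L 2 × Ord L 3 :=
      (AddMonoidHom.mk' (fun x => (⟨x.1.1, x.2.1⟩, ⟨x.1.2, x.2.2⟩)) fun _ _ => rfl).toIntLinearMap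
    exact Module.Finite.of_injective φ fun x y h => Subtype.ext (Prod.ext
      (congrArg (fun t => t.1.1) h) (congrArg (fun t => t.2.1) h))
  · refine eq_top_iff.2 fun x _ => ?_
    obtain ⟨m, hm, h1⟩ := mult (c := 2) (by norm_num) x.1
    obtain ⟨k, hk, h2⟩ := mult (c := 3) (by norm_num) x.2
    have h3 : ((m * k : ℤ) : ℚ) • x ∈ ((Ord L 2).prod (Ord L 3) : Set (L × L)) := by
      rw [Int.cast_smul_eq_zsmul]
      refine ⟨?_, ?_⟩
      · have := (Ord L 2).mul_mem (intCast_mem _ k) h1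
        rwa [Prod.smul_fst, zsmul_eq_mul, Int.cast_mul, mul_comm (m : L),
          mul_assoc]
      · have := (Ord L 3).mul_mem (intCast_mem _ m) h2
        rwa [Prod.smul_snd, zsmul_eq_mul, Int.cast_mul, mul_assoc]
    exact (Submodule.smul_mem_iff _ (Int.cast_ne_zero.2 (mul_ne_zero hm hk))).1
      (Submodule.subset_span h3)
  · ext f
    constructor
    · intro h b hb
      have h2 : ∀ x ∈ Ord L 2, IsIntegral ℤ (aeval x f) := fun x hx => by
        have := h (x, 0) ⟨hx, (Ord L 3).zero_mem⟩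
        rw [ev, pi] at this
        exact this.1
      have h3 : ∀ x ∈ Ord L 3, IsIntegral ℤ (aeval x f) := fun x hx => by
        have := h (0, x) ⟨(Ord L 2).zero_mem, hx⟩
        rw [ev, pi] at this
        exact this.2
      rw [ev, pi]
      exact ⟨dense f h2 h3 _ ((pi b).1 hb).1, dense f h2 h3 _ ((pi b).1 hb).2⟩
    · exact fun h a ha => h a ((pi a).2 ⟨Ord.int ha.1, Ord.int ha.2⟩)
  · intro h
    have hi' : IsIntegral ℤ i := ⟨X ^ 2 + 1, by monicity!, by simpa using hi⟩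
    have hint : IsIntegral ℤ ((i, i) : L × L) := (pi _).2 ⟨hi', hi'⟩
    obtain ⟨z, hz⟩ := IsAlgClosed.exists_aeval_eq_zero (AlgebraicClosure ℚ) (minpoly ℚ ((i, i) : L × L))
      (minpoly.degree_pos hint.tower_top).ne'
    have hz2 : z ^ 2 + 1 = 0 := by
      have : minpoly ℚ ((i, i) : L × L) ∣ X ^ 2 + 1 := minpoly.dvd ℚ _ (by
        rw [ev]; simp [hi])
      simpa using aeval_eq_zero_of_dvd_aeval_eq_zero this hz
    have hm : z ∈ Eig ℚ {b : L × L | IsIntegral ℤ b} := ⟨_, hint, hz⟩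
    rw [← h] at hm
    obtain ⟨a, ha, hza⟩ := hm
    have hd : minpoly ℚ a ∣ minpoly ℚ a.1 * minpoly ℚ a.2 := minpoly.dvd ℚ _ (by
      rw [ev]; simp)
    have := aeval_eq_zero_of_dvd_aeval_eq_zero hd hza
    rw [map_mul] at this
    rcases mul_eq_zero.1 this with h1 | h1
    · refine notin (c := 2) (by norm_num) (fun n hn => ?_) ha.1 (root hz2 h1)
      have h5 := (ZMod.intCast_zmod_eq_zero_iff_dvd _ 4).2 hn
      push_cast at h5
      generalize (n : ZMod 4) = t at h5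
      revert t; decide
    · refine notin (c := 3) (by norm_num) (fun n hn => ?_) ha.2 (root hz2 h1)
      have h5 := (ZMod.intCast_zmod_eq_zero_iff_dvd _ 9).2 hn
      push_cast at h5
      generalize (n : ZMod 9) = t at h5
      revert t; decide

end

theorem result : ∃ (B : Type) (_ : CommRing B) (_ : Nontrivial B) (_ : Algebra ℤ B) (_ : Algebra ℚ B)
    (A : Subalgebra ℤ B), Module.Finite ℤ A ∧ Submodule.span ℚ (A : Set B) = ⊤ ∧
      IntK ℤ ℚ (A : Set B) = IntK ℤ ℚ {b : B | IsIntegral ℤ b} ∧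
      Eig ℚ (A : Set B) ≠ Eig ℚ {b : B | IsIntegral ℤ b} := by
  obtain ⟨z, hζ⟩ := (CyclotomicField.isCyclotomicExtension 4 ℚ).exists_isPrimitiveRoot
    (Set.mem_singleton 4) (by norm_num)
  refine main z ?_
  rw [(hζ.pow (by norm_num) (by norm_num : 4 = 2 * 2)).eq_neg_one_of_two_right, neg_add_cancel]

end Pool.Agent.Results.MP_efce82_al.Dense
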